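import Pool.Agent.Helper8.BM.Final

set_option autoImplicit false

namespace Pool.Agent.Results.MP_07db0e_nt.BorelMoment

open Set MeasureTheory Pool.Agent.Helper8.BM

/-- The power series `Λ(t) = ∑ Q_n'(-1) / n! * t ^ n` has infinite radius of convergence,
`Λ(t) e^{-t}` is integrable on `(0, ∞)`, and its integral is the second moment of the
Minkowski question mark function. -/
theorem result :
    (FormalMultilinearSeries.ofScalars ℝ
      (fun n : ℕ => deriv (Qfun n) (-1) / (n.factorial : ℝ))).radius = ⊤ ∧
    IntegrableOn (fun t : ℝ => Lambda t * Real.exp (-t)) (Ioi 0) ∧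
    ∫ t in Ioi (0 : ℝ), Lambda t * Real.exp (-t)
      = ∫ x in Icc (0 : ℝ) 1, x ^ 2 ∂qmarkStieltjes.measure :=
  main_result

end Pool.Agent.Results.MP_07db0e_nt.BorelMoment
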